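import Pool.Agent.H28.GN.T1
import Pool.Agent.H54.V.PGV

/-!
# Board thg_modules, row PGP: the inequality for a pair of processes with rare mismatches
-/

set_option autoImplicit false

open MeasureTheory ProbabilityTheory Filter Topology Finset
open scoped Nat ENNReal

namespace Pool.Agent.H17.GN

open Pool.Agent.H67.AG (avgP ul Inv)
open Pool.Agent.H28.LF (Wd La Cd dm ds)
open Pool.Agent.H28.GN
open Pool.Agent.H54.V (pgv_dm_meas pgv_dm_01 pgv_inv_meas pgv_inv_mem)

/-- the final arithmetic -/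
theorem pgp_arith {γ D i k a b s x : ℝ} (h1 : D * i * x ≤ a + b + s)
    (h2 : s ≤ γ / 8 * i * x) (h3 : γ ≤ D) (hi : 0 ≤ i) (hx : 0 ≤ x) (hk : k ≤ 2 * i)
    (hγ : 0 < γ) : 7 / 16 * γ * k * x ≤ a + b := by
  have h5 : γ * (i * x) ≤ D * (i * x) := mul_le_mul_of_nonneg_right h3 (mul_nonneg hi hx)
  have h6 : (γ * x) * k ≤ (γ * x) * (2 * i) :=
    mul_le_mul_of_nonneg_left hk (mul_nonneg hγ.le hx)
  nlinarith [h1, h2, h5, h6]

theorem pf_PGP (hP : T_PRI) (_hL : T_LGB) (_hB : Pool.Agent.H28.LF.T_LAB) : T_PGP := by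
  intro U q R Pt ι _ _ _ _ s pos I B γ κ hU hs hpos hc hcard hγ0 hγ hκ hspr Ω _ P _ T a a' A hT
    ha ha' hA hE
  classical
  have hAm : MeasurableSet A := pgv_inv_meas hA
  have hdm : Measurable (dm a a') := pgv_dm_meas ha ha'
  have hfm : Measurable (A.indicator (dm a a')) := hdm.indicator hAm
  have hf01 : ∀ ω, 0 ≤ A.indicator (dm a a') ω ∧ A.indicator (dm a a') ω ≤ 1 := by
    intro ω
    by_cases h : ω ∈ A
    · rw [Set.indicator_of_mem h]
      exact pgv_dm_01 a a' ω
    · rw [Set.indicator_of_notMem h]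
      norm_num
  have hint : Integrable (dm a a') P := by
    refine Integrable.of_bound hdm.aestronglyMeasurable 1 (Eventually.of_forall fun ω => ?_)
    rw [Real.norm_eq_abs, abs_of_nonneg (pgv_dm_01 a a' ω).1]
    exact (pgv_dm_01 a a' ω).2
  have hind : P[A.indicator (dm a a') | Inv T 1] =ᵐ[P] A.indicator (P[dm a a' | Inv T 1]) :=
    condExp_indicator hint hA
  have hE' : ∀ᵐ ω ∂P, (P[A.indicator (dm a a') | Inv T 1]) ω ≤ 2 * κ / Fintype.card ι := by
    filter_upwards [hind, hE] with ω h1 h2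
    rw [h1]
    by_cases h : ω ∈ A
    · rw [Set.indicator_of_mem h]
      exact h2 h
    · rw [Set.indicator_of_notMem h]
      positivity
  have hsp := hspr Ω P T (A.indicator (dm a a')) hT hfm hf01 hE'
  have hCd : ∀ d, Cd U P T (A.indicator (dm a a')) Set.univ d = Cd U P T (dm a a') A d := by
    intro d
    unfold Cd
    apply congrArg (ul U)
    funext k
    apply congrArg (avgP 2 k)
    funext p
    rw [setIntegral_univ, ← integral_indicator hAm]
    apply integral_congr_ae
    refine Eventually.of_forall fun ω => ?_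
    by_cases h : ω ∈ A
    · have h' : T^[p * d] ω ∈ A := (pgv_inv_mem hA _ ω).2 h
      simp only [Set.indicator_of_mem h, Set.indicator_of_mem h']
    · simp only [Set.indicator_of_notMem h, zero_mul]
  have hSp : Sp U pos I P T (A.indicator (dm a a')) Set.univ = Sp U pos I P T (dm a a') A := by
    unfold Sp
    simp only [hCd]
  have hfint : ∫ ω, A.indicator (dm a a') ω ∂P = ∫ ω in A, dm a a' ω ∂P := integral_indicator hAm
  rw [hSp, hfint] at hsp
  have hpri := hP Ω P T U q R Pt ι s pos I B a a' A hT hU hs hpos hc ha ha' hA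
  refine pgp_arith (D := dsG U s) (i := (I.card : ℝ)) hpri hsp hγ
    (Nat.cast_nonneg _) (integral_nonneg fun ω => (pgv_dm_01 a a' ω).1) ?_ hγ0
  exact_mod_cast hcard

end Pool.Agent.H17.GN
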